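import Mathlib
import Pool.Agent.W188.Mom.B4
import Pool.Agent.Results.MP_973905_nt.AllRealOrders

/-!
# The moments of zeta over the points of one ray

Let `z t = ζ(1/2 + it)`, let `u ≠ 0` be a direction and let `R p u T` be the sum of `|z t|^p` over the heights
`100 ≤ t ≤ T` at which `z t` lies on the ray `{r u : r > 0}` (one half-line).  For every real `p > 0` the sum
over one single ray and the integral `∫_0^T |z t|^p dt` have the same size up to powers of `log T`, with constants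
that do not depend on the direction:

* `∫_0^T |z|^p ≤ (C log T)^(p+1) (T + R p u (2T))`, one `C` for all `p > 0` and all directions;
* `R p u T ≤ C_p log T (T + ∫_0^(2T) |z|^p)`.

Hence: unconditional lower bounds `R p u T ≥ c T (log T)^(p²/4 - p - 1)` for every ray (`p ≥ 2`, `p + 1 < p²/4`);
the bound `T^(1+ε)` for the moment of order `p` is equivalent to this bound for the sums over one ray; and the
conjectured order of magnitude of the `2k`-th moment gives
`T (log T)^(k² - 2k - 1) ≪ R (2k) u T ≪ T (log T)^(k² + 1)`.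

The parts (majorants, windows, the comparison for lines) were formalized by the team in the starting library
(`Pool.Agent.W188.Mom`, by helper188 and others, which no hand-in used, and `Pool.Agent.W188.MZ`); the uniform
upper bound for rays and the assembly are new here.
-/

set_option autoImplicit false

open Filter Topology Set MeasureTheory

namespace Pool.Agent.Results.MP_973905_nt.OneRayMoments

/-- The value `ζ(1/2 + it)`. -/
noncomputable def z (t : ℝ) : ℂ := riemannZeta (1 / 2 + t * Complex.I)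

/-- The heights `100 ≤ t ≤ T` at which `ζ(1/2 + it)` lies on the ray `{r u : r > 0}`. -/
def Ray (u : ℂ) (T : ℝ) : Set ℝ := {t | 100 ≤ t ∧ t ≤ T ∧ ∃ r : ℝ, 0 < r ∧ z t = r * u}

/-- The sum of `|ζ(1/2 + it)|^p` over the heights in `Ray u T`. -/
noncomputable def R (p : ℝ) (u : ℂ) (T : ℝ) : ℝ := ∑ᶠ t ∈ Ray u T, ‖z t‖ ^ p

/-- The integral of `|ζ(1/2 + it)|^p` over `[0, T]`. -/
noncomputable def I (p T : ℝ) : ℝ := ∫ t in (0 : ℝ)..T, ‖z t‖ ^ p

open Pool.Agent.W188.Mom

lemma Ray_eq (u : ℂ) (T : ℝ) : Ray u T = RP u T := rfl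

lemma R_eq (p : ℝ) (u : ℂ) (T : ℝ) : R p u T = RS u p T := rfl

lemma z_norm (t : ℝ) : ‖z t‖ = Z t := rfl

lemma I_eq (p T : ℝ) : I p T = ∫ t in (0 : ℝ)..T, Z t ^ p := rfl

lemma Ray_finite {u : ℂ} (hu : u ≠ 0) (T : ℝ) : (Ray u T).Finite := by
  rw [Ray_eq, RP_norm hu]
  exact RP_finite (norm_dir hu) T

lemma pow_nonneg' (p t : ℝ) : 0 ≤ ‖z t‖ ^ p := Real.rpow_nonneg (norm_nonneg _) _

/-- finite sums over sets are monotone and subadditive -/
lemma fsum_le {A B D : Set ℝ} (hB : B.Finite) (hD : D.Finite) (h : A ⊆ B ∪ D) (p : ℝ) :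
    ∑ᶠ t ∈ A, ‖z t‖ ^ p ≤ (∑ᶠ t ∈ B, ‖z t‖ ^ p) + ∑ᶠ t ∈ D, ‖z t‖ ^ p := by
  classical
  have hA : A.Finite := (hB.union hD).subset h
  rw [finsum_mem_eq_finite_toFinset_sum _ hA, finsum_mem_eq_finite_toFinset_sum _ hB,
    finsum_mem_eq_finite_toFinset_sum _ hD]
  calc ∑ t ∈ hA.toFinset, ‖z t‖ ^ p ≤ ∑ t ∈ hB.toFinset ∪ hD.toFinset, ‖z t‖ ^ p := by
        refine Finset.sum_le_sum_of_subset_of_nonneg ?_ fun _ _ _ => pow_nonneg' _ _
        intro t ht
        have := h (hA.mem_toFinset.1 ht)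
        rw [Finset.mem_union, hB.mem_toFinset, hD.mem_toFinset]
        exact this
    _ ≤ _ := by
        rw [← Finset.sum_union_inter]
        have : 0 ≤ ∑ t ∈ hB.toFinset ∩ hD.toFinset, ‖z t‖ ^ p :=
          Finset.sum_nonneg fun _ _ => pow_nonneg' _ _
        linarith

lemma I_mono {p a b : ℝ} (hp : 0 < p) (ha : 0 ≤ a) (hab : a ≤ b) : I p a ≤ I p b :=
  mono_int hp le_rfl ha hab

lemma I_nonneg {p a : ℝ} (ha : 0 ≤ a) : 0 ≤ I p a :=
  intervalIntegral.integral_nonneg ha fun _ _ => pow_nonneg' _ _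

lemma I_sub {p : ℝ} (hp : 0 < p) (a b : ℝ) : ∫ t in a..b, Z t ^ p = I p b - I p a := by
  rw [I_eq, I_eq, intervalIntegral.integral_interval_sub_left (Zp_int hp _ _) (Zp_int hp _ _)]

/-- the dyadic step: the sum over the points of a ray in `(T/2, T]` -/
lemma dyadic {p : ℝ} (hp : 0 < p) : ∃ C T₀ : ℝ, 0 < C ∧ 400 ≤ T₀ ∧ ∀ (u : ℂ) (T : ℝ), u ≠ 0 → T₀ ≤ T →
    R p u T ≤ R p u (T / 2) + C * (Real.log T * (I p (2 * T) - I p (T / 4)) + T) := by
  obtain ⟨hfin, hcmp, -, -⟩ := Pool.Agent.Results.MP_973905_nt.AllRealOrders.result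
  obtain ⟨C, T₀, hC, h⟩ := hcmp p hp
  obtain ⟨T₁, hT₁⟩ := eventually_atTop.1 Pool.Agent.Results.MP_973905_nt.AllRealOrders.log_small
  refine ⟨C, max (max T₀ T₁) 400, hC, le_max_right _ _, fun u T hu hT => ?_⟩
  have h1 : T₀ ≤ T := ((le_max_left _ _).trans (le_max_left _ _)).trans hT
  have h2 := hT₁ T (((le_max_right _ _).trans (le_max_left _ _)).trans hT)
  have h3 : 400 ≤ T := (le_max_right _ _).trans hT
  have hL : 0 ≤ Real.log T := Real.log_nonneg (by linarith)
  have h4 := (h u T (T / 2) T hu h1 le_rfl (by linarith) (by linarith)).2 1 le_rfl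
  have h5 : R p u T ≤ R p u (T / 2) +
      Pool.Agent.Results.MP_973905_nt.AllRealOrders.D p u 1 (T / 2) T := by
    refine fsum_le (Ray_finite hu _) (hfin u 1 (T / 2) T hu le_rfl (by linarith) (by linarith)) ?_ p
    rintro t ⟨ht1, ht2, r, hr, ht3⟩
    by_cases ht : t ≤ T / 2
    · exact Or.inl ⟨ht1, ht, r, hr, ht3⟩
    · push Not at ht
      refine Or.inr ⟨⟨by linarith, 0, r, hr.ne', ?_⟩, ht, ht2⟩
      have e : Complex.exp (Real.pi * Complex.I * ((0 : ℕ) : ℂ) / ((1 : ℕ) : ℂ)) = 1 := by simp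
      rw [e, mul_one]
      exact ht3
  have h6 : (∫ t in (T / 2 - 2 * Real.log T)..(T + 2 * Real.log T),
      ‖Pool.Agent.Results.MP_973905_nt.AllRealOrders.z t‖ ^ p) ≤ I p (2 * T) - I p (T / 4) := by
    rw [← I_sub hp]
    exact mono_int hp (by linarith) (by linarith) (by linarith)
  have h7 : T ^ (-(p / 3)) ≤ 1 :=
    Real.rpow_le_one_of_one_le_of_nonpos (by linarith) (by linarith)
  have h7' : 0 ≤ T ^ (-(p / 3)) := Real.rpow_nonneg (by linarith) _
  have h8 : C * ((1 : ℕ) : ℝ) * (Real.log T * (∫ t in (T / 2 - 2 * Real.log T)..(T + 2 * Real.log T),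
      ‖Pool.Agent.Results.MP_973905_nt.AllRealOrders.z t‖ ^ p) + (T - T / 2 + 1) * T ^ (-(p / 3))) ≤
      C * (Real.log T * (I p (2 * T) - I p (T / 4)) + T) := by
    rw [Nat.cast_one, mul_one]
    apply mul_le_mul_of_nonneg_left _ hC.le
    have h9 := mul_le_mul_of_nonneg_left h6 hL
    have h10 : (T - T / 2 + 1) * T ^ (-(p / 3)) ≤ (T - T / 2 + 1) * 1 :=
      mul_le_mul_of_nonneg_left h7 (by linarith)
    linarith
  linarith

lemma upper {p : ℝ} (hp : 0 < p) : ∃ C T₀ : ℝ, 0 < C ∧ ∀ (u : ℂ) (T : ℝ), u ≠ 0 → T₀ ≤ T →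
    R p u T ≤ C * Real.log T * (T + I p (2 * T)) := by
  obtain ⟨C, T₁, hC, hT₁, hdy⟩ := dyadic hp
  obtain ⟨B, hB, hRS⟩ := RS_le hp one_pos
  set K : ℝ := B * (2 * T₁) ^ (1 : ℝ) * (2 * T₁ + I p (2 * T₁ + 2)) with hK
  have hT10 : 0 < T₁ := by linarith
  have hK0 : 0 ≤ K := by
    have := I_nonneg (p := p) (a := 2 * T₁ + 2) (by linarith)
    positivity
  -- the induction
  have key : ∀ n : ℕ, ∀ (u : ℂ) (T : ℝ), u ≠ 0 → T₁ ≤ T → T ≤ 2 ^ (n + 1) * T₁ →
      R p u T ≤ K + C * Real.log T * (I p (2 * T) + I p T + I p (T / 2)) + 2 * C * T := by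
    intro n
    induction n with
    | zero =>
      intro u T hu h1 h2
      rw [zero_add, pow_one] at h2
      have h3 := hRS T (by linarith) (u / (‖u‖ : ℂ)) (norm_dir hu)
      rw [R_eq, RS_norm hu]
      have h4 : (∫ t in (0 : ℝ)..(T + 2), Z t ^ p) ≤ I p (2 * T₁ + 2) :=
        I_mono hp (by linarith) (by linarith)
      have h5 : T ^ (1 : ℝ) ≤ (2 * T₁) ^ (1 : ℝ) :=
        Real.rpow_le_rpow (by linarith) h2 one_pos.le
      have h6 : B * T ^ (1 : ℝ) * (T + ∫ t in (0 : ℝ)..(T + 2), Z t ^ p) ≤ K := by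
        rw [hK]
        have h7 : 0 ≤ ∫ t in (0 : ℝ)..(T + 2), Z t ^ p := I_nonneg (p := p) (by linarith)
        exact mul_le_mul (mul_le_mul_of_nonneg_left h5 hB.le) (by linarith) (by linarith)
          (by positivity)
      have h8 : 0 ≤ C * Real.log T * (I p (2 * T) + I p T + I p (T / 2)) := by
        have := I_nonneg (p := p) (a := 2 * T) (by linarith)
        have := I_nonneg (p := p) (a := T) (by linarith)
        have := I_nonneg (p := p) (a := T / 2) (by linarith)
        have := Real.log_nonneg (x := T) (by linarith)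
        positivity
      have h9 : 0 ≤ 2 * C * T := by
        have : 0 ≤ T := by linarith
        positivity
      linarith
    | succ n ih =>
      intro u T hu h1 h2
      by_cases h3 : T ≤ 2 ^ (n + 1) * T₁
      · exact ih u T hu h1 h3
      · push Not at h3
        have h4 : T₁ ≤ T / 2 := by
          have h5 : (2 : ℝ) ≤ 2 ^ (n + 1) := by
            calc (2 : ℝ) = 2 ^ 1 := (pow_one _).symm
              _ ≤ 2 ^ (n + 1) := pow_le_pow_right₀ (by norm_num) (by omega)
          have := mul_le_mul_of_nonneg_right h5 hT10.le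
          linarith
        have h5 : T / 2 ≤ 2 ^ (n + 1) * T₁ := by
          have : (2 : ℝ) ^ (n + 1 + 1) = 2 ^ (n + 1) * 2 := pow_succ _ _
          rw [this] at h2
          linarith
        have h6 := ih u (T / 2) hu h4 h5
        have h7 := hdy u T hu h1
        have e1 : 2 * (T / 2) = T := by ring
        have e2 : T / 2 / 2 = T / 4 := by ring
        rw [e1, e2] at h6
        have h8 : Real.log (T / 2) ≤ Real.log T := Real.log_le_log (by linarith) (by linarith)
        have h9 : 0 ≤ I p T + I p (T / 2) + I p (T / 4) := by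
          have := I_nonneg (p := p) (a := T / 4) (by linarith)
          have := I_nonneg (p := p) (a := T) (by linarith)
          have := I_nonneg (p := p) (a := T / 2) (by linarith)
          positivity
        have h10 : C * Real.log (T / 2) * (I p T + I p (T / 2) + I p (T / 4)) ≤
            C * Real.log T * (I p T + I p (T / 2) + I p (T / 4)) :=
          mul_le_mul_of_nonneg_right (mul_le_mul_of_nonneg_left h8 hC.le) h9
        nlinarith
  refine ⟨3 * C + 2 * C + K, max T₁ 3, by positivity, fun u T hu hT => ?_⟩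
  have h1 : T₁ ≤ T := (le_max_left _ _).trans hT
  have h3 : 3 ≤ T := (le_max_right _ _).trans hT
  obtain ⟨n, hn⟩ : ∃ n : ℕ, T ≤ 2 ^ (n + 1) * T₁ := by
    obtain ⟨n, hn⟩ := pow_unbounded_of_one_lt (T / T₁) (by norm_num : (1 : ℝ) < 2)
    refine ⟨n, ?_⟩
    rw [div_lt_iff₀ hT10] at hn
    have : (2 : ℝ) ^ n * T₁ ≤ 2 ^ (n + 1) * T₁ :=
      mul_le_mul_of_nonneg_right (pow_le_pow_right₀ (by norm_num) (by omega)) hT10.le
    linarith
  have h4 := key n u T hu h1 hn
  have hlog : 1 ≤ Real.log T := by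
    rw [Real.le_log_iff_exp_le (by linarith)]
    have := Real.exp_one_lt_d9
    linarith
  have h5 : I p T ≤ I p (2 * T) := I_mono hp (by linarith) (by linarith)
  have h6 : I p (T / 2) ≤ I p (2 * T) := I_mono hp (by linarith) (by linarith)
  have h7 : 0 ≤ I p (2 * T) := I_nonneg (by linarith)
  have h8 : C * Real.log T * (I p (2 * T) + I p T + I p (T / 2)) ≤ C * Real.log T * (3 * I p (2 * T)) :=
    mul_le_mul_of_nonneg_left (by linarith) (by positivity)
  have h9 : K ≤ K * Real.log T * T := by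
    have : 1 ≤ Real.log T * T := one_le_mul_of_one_le_of_one_le hlog (by linarith)
    nlinarith
  have h10 : 2 * C * T ≤ 2 * C * Real.log T * T := by
    have : 0 ≤ 2 * C * T := by
      have : 0 ≤ T := by linarith
      positivity
    nlinarith
  have h11 : 0 ≤ K * Real.log T * I p (2 * T) := by positivity
  have h12 : 0 ≤ C * Real.log T * I p (2 * T) := by positivity
  have h13 : 0 ≤ C * Real.log T * T := by
    have : 0 ≤ T := by linarith
    positivity
  nlinarith

/-- The comparison of the moments with the moments over the points of one ray. -/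
theorem result :
    -- the sets of points are finite
    (∀ (u : ℂ) (T : ℝ), u ≠ 0 → (Ray u T).Finite) ∧
    -- the moments are bounded by the sums over the points of any ray
    (∃ C T₀ : ℝ, 0 < C ∧ ∀ T : ℝ, T₀ ≤ T → ∀ (u : ℂ) (p : ℝ), u ≠ 0 → 0 < p →
      I p T ≤ (C * Real.log T) ^ (p + 1) * (T + R p u (2 * T))) ∧
    -- and conversely
    (∀ p : ℝ, 0 < p → ∃ C T₀ : ℝ, 0 < C ∧ ∀ (u : ℂ) (T : ℝ), u ≠ 0 → T₀ ≤ T →
      R p u T ≤ C * Real.log T * (T + I p (2 * T))) ∧
    -- unconditional lower bounds for every ray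
    (∀ p : ℝ, 2 ≤ p → p + 1 < p ^ 2 / 4 → ∃ c T₀ : ℝ, 0 < c ∧ ∀ (u : ℂ) (T : ℝ), u ≠ 0 → T₀ ≤ T →
      c * T * Real.log T ^ (p ^ 2 / 4 - p - 1) ≤ R p u T) ∧
    -- the bound `T^(1+ε)` for a moment is decided on any single ray
    (∀ (p : ℝ) (u : ℂ), 0 < p → u ≠ 0 →
      ((∀ ε : ℝ, 0 < ε → ∃ B : ℝ, ∀ T : ℝ, 1 ≤ T → I p T ≤ B * T ^ (1 + ε)) ↔
        ∀ ε : ℝ, 0 < ε → ∃ B : ℝ, ∀ T : ℝ, 1 ≤ T → R p u T ≤ B * T ^ (1 + ε))) ∧
    -- consequences of the conjectured order of magnitude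
    (∀ k : ℝ, 0 < k → (∃ K : ℝ, ∀ᶠ T : ℝ in atTop, I (2 * k) T ≤ K * (T * Real.log T ^ (k ^ 2))) →
      ∃ K : ℝ, ∀ᶠ T : ℝ in atTop, ∀ u : ℂ, u ≠ 0 →
        R (2 * k) u T ≤ K * (T * Real.log T ^ (k ^ 2 + 1))) := by
  refine ⟨fun u T hu => Ray_finite hu T, ?_, fun p hp => upper hp, fun p hp hp2 => ?_,
    fun p u hp hu => ?_, fun k hk => ?_⟩
  · obtain ⟨C, N, hC, hN, h⟩ := major
    refine ⟨C, N, by linarith, fun T hT u p hu hp => ?_⟩
    have := h T hT (u / (‖u‖ : ℂ)) (norm_dir hu) p hp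
    rw [R_eq, RS_norm hu]
    exact this
  · obtain ⟨c, T₀, hc, h⟩ := ray_lower hp hp2
    refine ⟨c, T₀, hc, fun u T hu hT => ?_⟩
    rw [R_eq, RS_norm hu]
    exact h T hT _ (norm_dir hu)
  · have key : ∀ f : ℝ → ℝ, (∀ ε : ℝ, 0 < ε → ∃ B : ℝ, ∀ T : ℝ, 1 ≤ T → f T ≤ B * T ^ (1 + ε)) ↔
        ∀ ε : ℝ, 0 < ε → ∃ B : ℝ, ∀ T : ℝ, 1 ≤ T → 1 / T * f T ≤ B * T ^ ε := by
      intro f
      constructor
      · intro h ε hε
        obtain ⟨B, hB⟩ := h ε hε
        refine ⟨B, fun T hT => ?_⟩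
        have hT0 : 0 < T := by linarith
        have h1 := hB T hT
        rw [Real.rpow_add hT0, Real.rpow_one] at h1
        rw [one_div, inv_mul_le_iff₀ hT0]
        linarith
      · intro h ε hε
        obtain ⟨B, hB⟩ := h ε hε
        refine ⟨B, fun T hT => ?_⟩
        have hT0 : 0 < T := by linarith
        have h1 := hB T hT
        rw [one_div, inv_mul_le_iff₀ hT0] at h1
        rw [Real.rpow_add hT0, Real.rpow_one]
        linarith
    rw [key, key]
    have e : ∀ T : ℝ, R p u T = RS (u / (‖u‖ : ℂ)) p T := fun T => by rw [R_eq, RS_norm hu]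
    simp only [e]
    exact ⟨fun h => ray_of_moment hp h (norm_dir hu), fun h => moment_of_ray hp (norm_dir hu) h⟩
  · rintro ⟨K, hK⟩
    obtain ⟨C, T₀, hC, h⟩ := upper (p := 2 * k) (by linarith)
    have h2 : Tendsto (fun T : ℝ => 2 * T) atTop atTop :=
      tendsto_id.const_mul_atTop (by norm_num)
    refine ⟨C * (1 + 2 * |K| * 2 ^ (k ^ 2)), ?_⟩
    filter_upwards [h2.eventually hK, eventually_ge_atTop T₀, eventually_ge_atTop 3] with T h3 h4 h5 u hu
    have hlog : 1 ≤ Real.log T := by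
      rw [Real.le_log_iff_exp_le (by linarith)]
      have := Real.exp_one_lt_d9
      linarith
    have h6 := h u T hu h4
    have h7 : Real.log (2 * T) ≤ 2 * Real.log T := by
      rw [Real.log_mul (by norm_num) (by linarith)]
      have : Real.log 2 ≤ Real.log T := Real.log_le_log (by norm_num) (by linarith)
      linarith
    have h8 : Real.log (2 * T) ^ (k ^ 2) ≤ 2 ^ (k ^ 2) * Real.log T ^ (k ^ 2) := by
      rw [← Real.mul_rpow (by norm_num) (by linarith)]
      exact Real.rpow_le_rpow (Real.log_nonneg (by linarith)) h7 (by positivity)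
    have h9 : I (2 * k) (2 * T) ≤ |K| * (2 * T * (2 ^ (k ^ 2) * Real.log T ^ (k ^ 2))) := by
      refine h3.trans ?_
      have h10 : 0 ≤ 2 * T * Real.log (2 * T) ^ (k ^ 2) := by
        have := Real.rpow_nonneg (Real.log_nonneg (x := 2 * T) (by linarith)) (k ^ 2)
        have : 0 ≤ T := by linarith
        positivity
      calc K * (2 * T * Real.log (2 * T) ^ (k ^ 2)) ≤ |K| * (2 * T * Real.log (2 * T) ^ (k ^ 2)) :=
            mul_le_mul_of_nonneg_right (le_abs_self K) h10
        _ ≤ _ := by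
            apply mul_le_mul_of_nonneg_left _ (abs_nonneg K)
            exact mul_le_mul_of_nonneg_left h8 (by linarith)
    have h11 : T ≤ T * Real.log T ^ (k ^ 2) := by
      have : 1 ≤ Real.log T ^ (k ^ 2) := Real.one_le_rpow hlog (by positivity)
      nlinarith
    have h12 : Real.log T ^ (k ^ 2 + 1) = Real.log T ^ (k ^ 2) * Real.log T := by
      rw [Real.rpow_add (by linarith), Real.rpow_one]
    rw [h12]
    calc R (2 * k) u T ≤ C * Real.log T * (T + I (2 * k) (2 * T)) := h6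
      _ ≤ C * Real.log T * (T * Real.log T ^ (k ^ 2) +
          |K| * (2 * T * (2 ^ (k ^ 2) * Real.log T ^ (k ^ 2)))) :=
          mul_le_mul_of_nonneg_left (add_le_add h11 h9) (by positivity)
      _ = _ := by ring

end Pool.Agent.Results.MP_973905_nt.OneRayMoments
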