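import Pool.Agent.TH535.RatC
import Pool.Agent.TH535.MasterX

set_option autoImplicit false

/-!
Unconditional lower bounds for the high rational moments of zeta on the critical line, on `[0, T]`
and over all intervals `[T, T + U]`, `U ≥ (log T)^B`, with constants growing like
`A ^ (k ^ 2) a(k) / Γ(k ^ 2 + 1)` for every `A` below
`sup_{0 < t < 1} 4^(1-t) t^(-t) (1+t)^(-(1-t^2)/t) = 1.7435...`
(the integral exponents `k` are treated in the results on MP_112ba8_nt and MP_6a632e_nt).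
-/

open Filter

theorem Pool.Agent.Results.MP_973905_nt.RationalGrowthWindows.lc_gamma (κ : ℝ) (hκ : 0 < κ)
    (m : ℕ) :
    Pool.Agent.H306R2.lc κ m =
      Real.Gamma (κ + m) / (Real.Gamma κ * (m.factorial : ℝ)) := by
  have hG : Real.Gamma κ ≠ 0 := (Real.Gamma_pos_of_pos hκ).ne'
  unfold Pool.Agent.H306R2.lc
  induction m with
  | zero => simp [hG]
  | succ m ih =>
    rw [Finset.prod_range_succ, ih]
    have h1 : κ + ((m + 1 : ℕ) : ℝ) = (κ + m) + 1 := by push_cast; ring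
    have h2 : κ + (m : ℝ) ≠ 0 := by positivity
    rw [h1, Real.Gamma_add_one h2, Nat.factorial_succ]
    have h3 : (m.factorial : ℝ) ≠ 0 := by exact_mod_cast m.factorial_ne_zero
    have h4 : (m : ℝ) + 1 ≠ 0 := by positivity
    push_cast
    field_simp

theorem Pool.Agent.Results.MP_973905_nt.RationalGrowthWindows.aF_gamma (κ : ℝ) (hκ : 0 < κ) :
    Pool.Agent.H306R2.aF κ =
      ∏' p : Nat.Primes, ((1 - ((p : ℕ) : ℝ)⁻¹) ^ (κ ^ 2) *
          ∑' m : ℕ, (Real.Gamma (κ + m) / (Real.Gamma κ * (m.factorial : ℝ))) ^ 2 *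
            ((p : ℕ) : ℝ)⁻¹ ^ m) := by
  unfold Pool.Agent.H306R2.aF
  refine tprod_congr fun p => ?_
  rw [one_div]
  congr 1
  refine tsum_congr fun m => ?_
  rw [Pool.Agent.Results.MP_973905_nt.RationalGrowthWindows.lc_gamma κ hκ]

theorem Pool.Agent.Results.MP_973905_nt.RationalGrowthWindows.result (t A : ℝ) (ht : 0 < t)
    (ht1 : t < 1) (hA : 0 < A)
    (hAt : A < 4 ^ (1 - t) / (t ^ t * (1 + t) ^ ((1 - t ^ 2) / t))) :
    ∃ K : ℝ, ∀ k : ℚ, K ≤ (k : ℝ) → (∀ m : ℤ, k ≠ m) →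
      (∀ᶠ T : ℝ in atTop,
        A ^ ((k : ℝ) ^ 2) / Real.Gamma ((k : ℝ) ^ 2 + 1) *
          (∏' p : Nat.Primes, ((1 - ((p : ℕ) : ℝ)⁻¹) ^ ((k : ℝ) ^ 2) *
            ∑' m : ℕ, (Real.Gamma ((k : ℝ) + m) / (Real.Gamma (k : ℝ) * (m.factorial : ℝ))) ^ 2 *
              ((p : ℕ) : ℝ)⁻¹ ^ m)) * Real.log T ^ ((k : ℝ) ^ 2) ≤
        T⁻¹ * ∫ t in (0:ℝ)..T, ‖riemannZeta (1 / 2 + t * Complex.I)‖ ^ (2 * (k : ℝ))) ∧
      ∃ B : ℝ, 0 < B ∧ ∀ᶠ T : ℝ in atTop, ∀ U : ℝ, Real.log T ^ B ≤ U →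
        A ^ ((k : ℝ) ^ 2) / Real.Gamma ((k : ℝ) ^ 2 + 1) *
          (∏' p : Nat.Primes, ((1 - ((p : ℕ) : ℝ)⁻¹) ^ ((k : ℝ) ^ 2) *
            ∑' m : ℕ, (Real.Gamma ((k : ℝ) + m) / (Real.Gamma (k : ℝ) * (m.factorial : ℝ))) ^ 2 *
              ((p : ℕ) : ℝ)⁻¹ ^ m)) * Real.log U ^ ((k : ℝ) ^ 2) ≤
        U⁻¹ * ∫ t in T..(T + U), ‖riemannZeta (1 / 2 + t * Complex.I)‖ ^ (2 * (k : ℝ)) := by
  rw [← Pool.Agent.TH535.exp_GG ht] at hAt
  obtain ⟨K, hK⟩ := Pool.Agent.TH535.growthR ht ht1 hA hAt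
  refine ⟨max K 1, fun k hk _ => ?_⟩
  have hkK : K ≤ (k : ℝ) := le_trans (le_max_left _ _) hk
  have hk0 : (0:ℝ) < (k : ℝ) := lt_of_lt_of_le one_pos (le_trans (le_max_right _ _) hk)
  obtain ⟨n, j, q, hA1, hc⟩ := hK k hkK
  have e := Pool.Agent.Results.MP_973905_nt.RationalGrowthWindows.aF_gamma (k : ℝ) hk0
  constructor
  · have h := Pool.Agent.TH535.masterN (k : ℝ) hk0 j q _ hA1 _ hc
    filter_upwards [h, eventually_gt_atTop 1] with T hT hT0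
    have hT1 : (0 : ℝ) < T := by linarith
    rw [← div_eq_inv_mul, le_div_iff₀ hT1, ← e]
    refine le_trans (le_of_eq ?_) hT
    ring
  · obtain ⟨B, hB, h⟩ := Pool.Agent.TH535.masterNX (k : ℝ) hk0 j q _ hA1 _ hc
    refine ⟨B, hB, ?_⟩
    filter_upwards [h, eventually_gt_atTop 1] with T hT hT0 U hU
    have hU0 : 0 < U := lt_of_lt_of_le (Real.rpow_pos_of_pos (Real.log_pos hT0) _) hU
    rw [← div_eq_inv_mul, le_div_iff₀ hU0, ← e]
    refine le_trans (le_of_eq ?_) (hT U hU)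
    ring
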